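import Pool.Agent.R246.SK.Defs

/-! SK-LAM (MP_3f9991_gt, project SK of helper246): the operator `Λ`. -/

set_option autoImplicit false

open scoped ContDiff ComplexConjugate
open Filter MeasureTheory

namespace Pool.Agent.H152R2.SK

open Pool.Agent.R246.SK

lemma rd_abs {c : ℤ → ℂ} (hc : RD c) : RD (fun n => ((|n| : ℤ) : ℂ) * c n) := by
  intro q
  obtain ⟨C, hC⟩ := hc (q + 1)
  refine ⟨C, ?_⟩
  intro n
  refine le_trans ?_ (hC n)
  have h1 : ‖((|n| : ℤ) : ℂ)‖ = |(n : ℝ)| := by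
    rw [Complex.norm_intCast]
    push_cast
    rw [abs_abs]
  rw [norm_mul, h1, pow_succ]
  have h2 : |(n : ℝ)| ≤ 1 + |(n : ℝ)| := by linarith
  have h3 : 0 ≤ ‖c n‖ * (1 + |(n : ℝ)|) ^ q := by positivity
  calc |(n : ℝ)| * ‖c n‖ * (1 + |(n : ℝ)|) ^ q = (‖c n‖ * (1 + |(n : ℝ)|) ^ q) * |(n : ℝ)| := by ring
    _ ≤ (‖c n‖ * (1 + |(n : ℝ)|) ^ q) * (1 + |(n : ℝ)|) := mul_le_mul_of_nonneg_left h2 h3
    _ = ‖c n‖ * ((1 + |(n : ℝ)|) ^ q * (1 + |(n : ℝ)|)) := by ring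

theorem s_lam (h1 : S_FT1) (h2 : S_FT2) (h3 : S_FT3) : S_LAM := by
  have key : ∀ f, SP f → SP (Lam f) ∧ ∀ n : ℤ, fc (Lam f) n = ((|n| : ℤ) : ℂ) * fc f n := by
    intro f hf
    have hr := rd_abs (h1 f hf).1
    have h4 := h2 _ hr
    exact h4
  intro f hf
  obtain ⟨k1, k2⟩ := key f hf
  refine ⟨k1, k2, ?_⟩
  intro g hg
  obtain ⟨l1, l2⟩ := key g hg
  have s1 := (h3 (Lam f) g k1 hg).1
  have s2 := (h3 f (Lam g) hf l1).1
  have e : (fun n : ℤ => fc (Lam f) n * conj (fc g n)) =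
      fun n : ℤ => fc f n * conj (fc (Lam g) n) := by
    funext n
    rw [k2, l2, map_mul, map_intCast]
    ring
  rw [e] at s1
  have h5 := s1.unique s2
  have h6 : ((1 / (2 * Real.pi) : ℝ) : ℂ) ≠ 0 := by
    have : (1 / (2 * Real.pi) : ℝ) ≠ 0 := by positivity
    exact_mod_cast this
  exact mul_left_cancel₀ h6 h5

end Pool.Agent.H152R2.SK
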